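import Pool.Agent.Helper4.MCP.GoalsB

/-!
# Packet CRP of project MCP (MP_d8224a_co): Chinese restaurant weights
-/

set_option autoImplicit false

namespace Pool.Agent.Helper39.MCP

open Pool.Agent.Helper4.MCP Pool.Agent.Helper26.MCE Pool.Agent.Helper87.MC Finset

/-- the weight of a pattern -/
noncomputable def wt {s : ℕ} (π : Fin s → Option (Fin s)) : ℕ :=
  ∏ l, ((blk π l).card - 1).factorial

/-- the pattern with the value `o` at the new point -/
def ext {s : ℕ} (p : (Fin s → Option (Fin s)) × Option (Fin (s + 1))) :
    Fin (s + 1) → Option (Fin (s + 1)) :=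
  Fin.snoc (α := fun _ => Option (Fin (s + 1))) (fun i => (p.1 i).map Fin.castSucc) p.2

lemma ext_castSucc {s : ℕ} (p : (Fin s → Option (Fin s)) × Option (Fin (s + 1))) (i : Fin s) :
    ext p i.castSucc = (p.1 i).map Fin.castSucc := by
  simp [ext]

lemma ext_last {s : ℕ} (p : (Fin s → Option (Fin s)) × Option (Fin (s + 1))) :
    ext p (Fin.last s) = p.2 := by
  simp [ext]

lemma ext_inj {s : ℕ} : Function.Injective (ext (s := s)) := by
  rintro ⟨π, o⟩ ⟨π', o'⟩ h
  have h1 : o = o' := by
    have := congrFun h (Fin.last s)
    simpa [ext_last] using this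
  have h2 : π = π' := by
    funext i
    have := congrFun h i.castSucc
    rw [ext_castSucc, ext_castSucc] at this
    exact Option.map_injective (Fin.castSucc_injective s) this
  rw [h1, h2]

lemma mem_blk {s : ℕ} (π : Fin s → Option (Fin s)) (l i : Fin s) : i ∈ blk π l ↔ π i = some l := by
  simp [blk]

open Classical in
lemma card_blk_castSucc {s : ℕ} (π : Fin s → Option (Fin s)) (o : Option (Fin (s + 1)))
    (l : Fin s) : (blk (ext (π, o)) l.castSucc).card =
      (blk π l).card + (if o = some l.castSucc then 1 else 0) := by
  have h : blk (ext (π, o)) l.castSucc = (blk π l).map ⟨Fin.castSucc, Fin.castSucc_injective s⟩ ∪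
      (if o = some l.castSucc then {Fin.last s} else ∅) := by
    ext i
    rw [mem_blk, mem_union]
    refine Fin.lastCases ?_ (fun i => ?_) i
    · rw [ext_last]
      constructor
      · intro h
        right
        simp only at h
        simp [h]
      · rintro (h | h)
        · rw [mem_map] at h
          obtain ⟨j, -, hj⟩ := h
          exact absurd hj (Fin.castSucc_ne_last j)
        · split_ifs at h with h1
          · exact h1
          · simp at h
    · rw [ext_castSucc]
      constructor
      · intro h
        left
        rw [mem_map]
        refine ⟨i, ?_, rfl⟩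
        rw [mem_blk]
        rw [Option.map_eq_some_iff] at h
        obtain ⟨a, ha, ha'⟩ := h
        simp only at ha
        rw [ha, Fin.castSucc_injective s ha']
      · rintro (h | h)
        · rw [mem_map] at h
          obtain ⟨j, hj, hj'⟩ := h
          rw [mem_blk] at hj
          have : j = i := Fin.castSucc_injective s hj'
          subst this
          simp [hj]
        · split_ifs at h with h1
          · rw [mem_singleton] at h
            exact absurd h (Fin.castSucc_ne_last i)
          · simp at h
  rw [h, card_union_of_disjoint, card_map]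
  · split_ifs <;> simp
  · rw [disjoint_left]
    intro i hi hi'
    rw [mem_map] at hi
    obtain ⟨j, -, rfl⟩ := hi
    split_ifs at hi'
    · rw [mem_singleton] at hi'
      exact absurd hi' (Fin.castSucc_ne_last j)
    · simp at hi'

lemma card_blk_last {s : ℕ} (π : Fin s → Option (Fin s)) (o : Option (Fin (s + 1))) :
    (blk (ext (π, o)) (Fin.last s)).card ≤ 1 := by
  rw [card_le_one_iff]
  have h : ∀ i, i ∈ blk (ext (π, o)) (Fin.last s) → i = Fin.last s := by
    intro i
    rw [mem_blk]
    refine Fin.lastCases (fun _ => rfl) (fun i h => ?_) i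
    rw [ext_castSucc, Option.map_eq_some_iff] at h
    obtain ⟨a, -, ha⟩ := h
    exact absurd ha (Fin.castSucc_ne_last a)
  intro a b ha hb
  rw [h a ha, h b hb]

lemma wt_ext {s : ℕ} (π : Fin s → Option (Fin s)) (o : Option (Fin (s + 1)))
    (ho : ∀ l : Fin s, o ≠ some l.castSucc) : wt (ext (π, o)) = wt π := by
  unfold wt
  rw [Fin.prod_univ_castSucc]
  have h1 : (blk (ext (π, o)) (Fin.last s)).card - 1 = 0 := by
    have := card_blk_last π o
    omega
  rw [h1, Nat.factorial_zero, mul_one]
  refine prod_congr rfl fun l _ => ?_
  rw [card_blk_castSucc, if_neg (ho l), add_zero]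

lemma wt_ext_some {s : ℕ} (π : Fin s → Option (Fin s)) (l : Fin s) (hl : π l = some l) :
    wt (ext (π, some l.castSucc)) = wt π * (blk π l).card := by
  unfold wt
  rw [Fin.prod_univ_castSucc]
  have h1 : (blk (ext (π, some l.castSucc)) (Fin.last s)).card - 1 = 0 := by
    have := card_blk_last π (some l.castSucc)
    omega
  rw [h1, Nat.factorial_zero, mul_one]
  rw [← mul_prod_erase univ _ (mem_univ l), ← mul_prod_erase univ (fun l =>
    ((blk π l).card - 1).factorial) (mem_univ l), card_blk_castSucc, if_pos rfl]
  have h2 : ∏ x ∈ univ.erase l, ((blk (ext (π, some l.castSucc)) x.castSucc).card - 1).factorial =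
      ∏ x ∈ univ.erase l, ((blk π x).card - 1).factorial := by
    refine prod_congr rfl fun x hx => ?_
    rw [card_blk_castSucc, if_neg, add_zero]
    intro h
    have := Fin.castSucc_injective s (Option.some_injective _ h)
    exact (ne_of_mem_erase hx) this.symm
  rw [h2]
  have h3 : 0 < (blk π l).card := card_pos.mpr ⟨l, (mem_blk π l l).mpr hl⟩
  have h4 : ((blk π l).card + 1 - 1).factorial = (blk π l).card * ((blk π l).card - 1).factorial := by
    rw [Nat.add_sub_cancel]
    exact (Nat.mul_factorial_pred h3.ne').symm
  rw [h4]
  ring

lemma sum_blk_le {s : ℕ} {I : Finset (Fin s)} {π : Fin s → Option (Fin s)} (h : Can I π) :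
    ∑ l, (blk π l).card ≤ I.card := by
  rw [← card_biUnion]
  · refine card_le_card fun i hi => ?_
    rw [mem_biUnion] at hi
    obtain ⟨l, -, hl⟩ := hi
    rw [mem_blk] at hl
    exact (h i l hl).1
  · intro l _ l' _ hne
    rw [Function.onFun, disjoint_left]
    intro i hi hi'
    rw [mem_blk] at hi hi'
    rw [hi] at hi'
    exact hne (Option.some_injective _ hi')

open Classical in
/-- the possible values at the new point -/
noncomputable def ops {s : ℕ} (I : Finset (Fin (s + 1))) (π : Fin s → Option (Fin s)) :
    Finset (Option (Fin (s + 1))) :=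
  if Fin.last s ∈ I then insert none (insert (some (Fin.last s))
    ((univ.filter fun l => π l = some l).image fun l : Fin s => some l.castSucc)) else {none}

lemma sum_ops {s : ℕ} {I : Finset (Fin (s + 1))} {I' : Finset (Fin s)}
    {π : Fin s → Option (Fin s)} (h : Can I' π) :
    ∑ o ∈ ops I π, wt (ext (π, o)) ≤ wt π * (if Fin.last s ∈ I then I'.card + 2 else 1) := by
  classical
  unfold ops
  split_ifs with hI
  · rw [sum_insert (by simp), sum_insert, sum_image, wt_ext _ _ (by simp),
      wt_ext _ _ (fun l h => Fin.castSucc_ne_last l (Option.some_injective _ h).symm)]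
    · have h1 : ∑ l ∈ univ.filter (fun l => π l = some l), wt (ext (π, some l.castSucc)) ≤
          wt π * I'.card := by
        calc _ = ∑ l ∈ univ.filter (fun l => π l = some l), wt π * (blk π l).card :=
              sum_congr rfl fun l hl => wt_ext_some π l (mem_filter.mp hl).2
          _ ≤ ∑ l, wt π * (blk π l).card := sum_le_sum_of_subset (filter_subset _ _)
          _ = wt π * ∑ l, (blk π l).card := (mul_sum _ _ _).symm
          _ ≤ _ := Nat.mul_le_mul_left _ (sum_blk_le h)
      calc _ ≤ wt π + (wt π + wt π * I'.card) := by omega
        _ = _ := by ring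
    · intro a _ b _ hab
      exact Fin.castSucc_injective s (Option.some_injective _ hab)
    · rw [mem_image]
      rintro ⟨l, -, hl⟩
      exact Fin.castSucc_ne_last l (Option.some_injective _ hl)
  · rw [sum_singleton, wt_ext _ _ (by simp), mul_one]

theorem goalCRP : G_CRP := by
  classical
  intro s
  induction s with
  | zero =>
    intro I
    refine (sum_le_sum_of_subset (filter_subset _ _)).trans ?_
    simpa using Nat.succ_le_of_lt (Nat.factorial_pos (I.card + 1))
  | succ s ih =>
    intro I
    set I' : Finset (Fin s) := univ.filter fun i => i.castSucc ∈ I with hI'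
    have hcard : I.card = I'.card + (if Fin.last s ∈ I then 1 else 0) := by
      have h1 : I.card = ∑ i : Fin (s + 1), if i ∈ I then 1 else 0 := by
        rw [← card_filter]
        congr 1
        ext i
        simp
      rw [h1, Fin.sum_univ_castSucc, hI', card_filter]
    set S : Finset (Fin s → Option (Fin s)) := univ.filter fun π => Can I' π with hS
    have hsub : (univ.filter fun π : Fin (s + 1) → Option (Fin (s + 1)) => Can I π) ⊆
        (S.sigma fun π => ops I π).image fun p => ext (p.1, p.2) := by
      intro π hπ
      have hC : Can I π := (mem_filter.mp hπ).2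
      have hlt : ∀ i : Fin s, ∀ l, π i.castSucc = some l → l ≠ Fin.last s := by
        intro i l h hl
        have := (hC _ _ h).2.2
        rw [hl] at this
        exact absurd (lt_of_lt_of_le (Fin.castSucc_lt_last i) this) (lt_irrefl _)
      have hex : ∀ i : Fin s, ∃ o : Option (Fin s), o.map Fin.castSucc = π i.castSucc := by
        intro i
        rcases h : π i.castSucc with _ | l
        · exact ⟨none, rfl⟩
        · refine ⟨some (l.castPred (hlt i l h)), ?_⟩
          simp
      choose π' hπ' using hex
      have key : ∀ i l, π' i = some l ↔ π i.castSucc = some l.castSucc := by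
        intro i l
        rw [← hπ' i]
        constructor
        · intro h
          simp [h]
        · intro h
          have h2 : (π' i).map Fin.castSucc = (some l).map Fin.castSucc := by simpa using h
          exact Option.map_injective (Fin.castSucc_injective s) h2
      rw [mem_image]
      refine ⟨⟨π', π (Fin.last s)⟩, ?_, ?_⟩
      · rw [mem_sigma]
        refine ⟨?_, ?_⟩
        · rw [hS, mem_filter]
          refine ⟨mem_univ _, fun i l h => ?_⟩
          have h1 := hC _ _ ((key i l).mp h)
          refine ⟨?_, (key l l).mpr h1.2.1, ?_⟩
          · rw [hI', mem_filter]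
            exact ⟨mem_univ _, h1.1⟩
          · exact Fin.castSucc_le_castSucc_iff.mp h1.2.2
        · simp only
          unfold ops
          rcases h : π (Fin.last s) with _ | l
          · split_ifs <;> simp
          · have h1 := hC _ _ h
            rw [if_pos h1.1]
            refine Fin.lastCases (fun _ => ?_) (fun l h1 => ?_) l h1.2.1
            · simp
            · rw [mem_insert, mem_insert, mem_image]
              right; right
              refine ⟨l, ?_, rfl⟩
              rw [mem_filter]
              exact ⟨mem_univ _, (key l l).mpr h1⟩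
      · funext i
        refine Fin.lastCases ?_ (fun i => ?_) i
        · simp only
          rw [ext_last]
        · simp only
          rw [ext_castSucc]
          exact hπ' i
    calc ∑ π ∈ univ.filter (fun π : Fin (s + 1) → Option (Fin (s + 1)) => Can I π), wt π
        ≤ ∑ π ∈ (S.sigma fun π => ops I π).image fun p => ext (p.1, p.2), wt π :=
          sum_le_sum_of_subset hsub
      _ = ∑ p ∈ S.sigma fun π => ops I π, wt (ext (p.1, p.2)) := by
          rw [sum_image]
          rintro ⟨π, o⟩ _ ⟨π', o'⟩ _ h
          have := ext_inj h
          simp only [Prod.mk.injEq] at this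
          obtain ⟨rfl, rfl⟩ := this
          rfl
      _ = ∑ π ∈ S, ∑ o ∈ ops I π, wt (ext (π, o)) := by
          rw [sum_sigma]
      _ ≤ ∑ π ∈ S, wt π * (if Fin.last s ∈ I then I'.card + 2 else 1) :=
          sum_le_sum fun π hπ => sum_ops (mem_filter.mp hπ).2
      _ = (∑ π ∈ S, wt π) * (if Fin.last s ∈ I then I'.card + 2 else 1) := (sum_mul _ _ _).symm
      _ ≤ (I'.card + 1).factorial * (if Fin.last s ∈ I then I'.card + 2 else 1) :=
          Nat.mul_le_mul_right _ (ih I')
      _ = (I.card + 1).factorial := by
          rw [hcard]
          split_ifs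
          · rw [Nat.factorial_succ (I'.card + 1)]
            ring
          · simp

end Pool.Agent.Helper39.MCP
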